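import Pool.Agent.K6.H74.HF.FIN
import Pool.Agent.K6.H74.HF.FROB
import Pool.Agent.K6.H74.HF.PERP
import Pool.Agent.K6.H74.HF.GEN
import Pool.Agent.K6.H74.HF.CUT
import Pool.Agent.K6.H74.HF.OV0
import Pool.Agent.K6.H74.HF.OVM
import Pool.Agent.K6.H74.HF.DIS
import Pool.Agent.K6.H74.HF.COV
import Pool.Agent.K6.H74.HF.NE

/-!
# The Hermitian surface `H(3,q^2)` is partitioned into `q^2+1` ovoids for every prime power `q`

Explicit family: with `c` nonisotropic, `w` isotropic and orthogonal to `c`, `n_0` nonisotropic and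
orthogonal to `c` and `w`, and `n_μ = n_0 + μ w`, the ovoids are `c^⊥` and
`(n_μ^⊥ \ c^⊥) ∪ ⟨c, n_μ⟩`, `μ ∈ K`.
-/

namespace Pool.Agent.Results.MP_da2386_co.HermitianSurface

open H74HF

/-- The point set of the Hermitian polar space `H(3,q^2)` has a partition into `q^2+1` ovoids. -/
theorem result : ∀ (K : Type) [Field K] [Finite K] (q : ℕ), Nat.card K = q ^ 2 →
    ∃ F : Set (Set (Submodule K (Fin 4 → K))),
      (∀ O ∈ F, IsOvoid q O) ∧ (∀ O ∈ F, ∀ O' ∈ F, O ≠ O' → Disjoint O O') ∧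
      (∀ P, IsPoint q P → ∃ O ∈ F, P ∈ O) ∧ F.ncard = q ^ 2 + 1 :=
  t_FIN t_FROB (t_OV0 t_FROB (t_CUT t_FROB (t_GEN t_FROB (t_PERP t_FROB))))
    (t_OVM t_FROB (t_PERP t_FROB) (t_GEN t_FROB (t_PERP t_FROB))
      (t_CUT t_FROB (t_GEN t_FROB (t_PERP t_FROB)))) (t_DIS t_FROB) (t_COV t_FROB) t_NE

end Pool.Agent.Results.MP_da2386_co.HermitianSurface
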